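import Pool.Agent.helper70.TW.SpecE
import Pool.Agent.helper62.ZT.CMF
import Pool.Agent.helper62.ZT.LTW
import Pool.Agent.helper62.ZT.DNB

/-!
# Project TW, row CVT: the interchange for the twisted coefficients
-/

set_option autoImplicit false

open Complex

namespace Pool.Agent.TW

open Pool.Agent.ZT (cmf cmA cmI lamA muA hm Sqf)

theorem CVT_cmf (X : ℕ → ℂ) (h1 : X 1 = 1) (hm : ∀ m m' : ℕ, X (m * m') = X m * X m') (m : ℕ) (h0 : m ≠ 0) :
    cmf X m = X m := by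
  have e1 : X m = X (m.primeFactorsList.prod) := by rw [Nat.prod_primeFactorsList h0]
  rw [cmf, if_neg h0, e1]
  let f : ℕ →* ℂ := { toFun := X, map_one' := h1, map_mul' := hm }
  exact (map_list_prod f m.primeFactorsList).symm

theorem CVT_bound (f g : ArithmeticFunction ℂ) (C : ℝ) (hC : 0 < C) (hf : ∀ m : ℕ, ‖f m‖ ≤ C * m)
    (hg : ∀ m : ℕ, ‖g m‖ ≤ C * m) (e : ℕ) : ‖(f * g) e‖ ≤ C ^ 2 * (e : ℝ) ^ 2 := by
  rw [ArithmeticFunction.mul_apply]
  calc ‖∑ y ∈ e.divisorsAntidiagonal, f y.1 * g y.2‖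
      ≤ ∑ y ∈ e.divisorsAntidiagonal, ‖f y.1 * g y.2‖ := norm_sum_le _ _
    _ ≤ ∑ y ∈ e.divisorsAntidiagonal, C ^ 2 * (e : ℝ) := by
        apply Finset.sum_le_sum
        intro y hy
        rw [norm_mul]
        have h3 : ((y.1 : ℝ)) * y.2 = e := by
          exact_mod_cast (Nat.mem_divisorsAntidiagonal.mp hy).1
        calc ‖f y.1‖ * ‖g y.2‖ ≤ (C * y.1) * (C * y.2) :=
              mul_le_mul (hf y.1) (hg y.2) (norm_nonneg _) (by positivity)
          _ = C ^ 2 * (e : ℝ) := by rw [← h3]; ring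
    _ = (e.divisorsAntidiagonal.card : ℝ) * (C ^ 2 * (e : ℝ)) := by
        rw [Finset.sum_const, nsmul_eq_mul]
    _ ≤ (e : ℝ) * (C ^ 2 * (e : ℝ)) := by
        apply mul_le_mul_of_nonneg_right _ (by positivity)
        rw [← Nat.map_div_right_divisors, Finset.card_map]
        exact_mod_cast Nat.card_divisors_le_self e
    _ = C ^ 2 * (e : ℝ) ^ 2 := by ring

theorem CVT (hGCV : GCV_stmt) (hSAT : SAT_stmt) (hCTA : CTA_stmt) : CVT_stmt := by
  have hCMF : Pool.Agent.ZT.CMF_stmt := Pool.Agent.ZT.CMF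
  have hLTW : Pool.Agent.ZT.LTW_stmt := Pool.Agent.ZT.LTW hCMF
  have hDNB : Pool.Agent.ZT.DNB_stmt := Pool.Agent.ZT.DNB
  intro n β X hn hX1 hXm hXb
  have h1 : ∀ m : ℕ, lamA (fun p => sat n (β p)) X m = X m * lamA (fun p => sat n (β p)) (fun _ => 1) m := by
    intro m
    rcases eq_or_ne m 0 with h0 | h0
    · rw [h0, ArithmeticFunction.map_zero, ArithmeticFunction.map_zero, mul_zero]
    · have h2 := (hLTW n (fun p => sat n (β p)) X (fun _ => 1)).1 m
      simp only [mul_one] at h2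
      rw [h2, CVT_cmf X hX1 hXm m h0]
  refine ⟨h1, ?_⟩
  intro g x hx hg
  obtain ⟨C, hC0, hC⟩ := (hDNB n).1 1 one_pos
  have hsat : ∀ p, p.Prime → ∀ j, ‖(fun p => sat n (β p)) p j‖ ≤ 1 := fun p _ j => ((hSAT n hn).1 (β p) j).le
  have hcen : ∀ p : ℕ, p.Prime → ∀ j, ‖(fun _ : ℕ => cen n) p j‖ ≤ 1 := fun p _ j => ((hSAT n hn).1 0 j).le
  have hone : ∀ p : ℕ, p.Prime → ‖(fun _ : ℕ => (1 : ℂ)) p‖ ≤ 1 := fun p _ => by simp
  have hls : ∀ m : ℕ, ‖lamA (fun p => sat n (β p)) (fun _ => 1) m‖ ≤ C * m := fun m => by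
    have := (hC _ _ hsat hone m).1
    rwa [Real.rpow_one] at this
  have hlc : ∀ m : ℕ, ‖lamA (fun _ => cen n) (fun _ => 1) m‖ ≤ C * m := fun m => by
    have := (hC _ _ hcen hone m).1
    rwa [Real.rpow_one] at this
  have hmc : ∀ m : ℕ, ‖muA (fun _ => cen n) (fun _ => 1) m‖ ≤ C * m := fun m => by
    have := (hC _ _ hcen hone m).2
    rwa [Real.rpow_one] at this
  have hinv : lamA (fun _ => cen n) (fun _ => 1) * muA (fun _ => cen n) (fun _ => 1) = 1 :=
    (hLTW n (fun _ => cen n) (fun _ => 1) (fun _ => 1)).2.2.1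
  have hfh : lamA (fun _ => cen n) (fun _ => 1) *
      (lamA (fun p => sat n (β p)) (fun _ => 1) * muA (fun _ => cen n) (fun _ => 1)) =
      lamA (fun p => sat n (β p)) (fun _ => 1) := by
    rw [mul_comm (lamA (fun p => sat n (β p)) (fun _ => 1)), ← mul_assoc, hinv, one_mul]
  have hsq : ∀ m : ℕ, (m : ℝ) ≤ (m : ℝ) ^ 2 := by
    intro m
    rcases Nat.eq_zero_or_pos m with h0 | h0
    · rw [h0]; simp
    · have : (1 : ℝ) ≤ m := by exact_mod_cast h0
      nlinarith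
  obtain ⟨a1, a2, -, a4⟩ := hGCV (lamA (fun _ => cen n) (fun _ => 1))
    (lamA (fun p => sat n (β p)) (fun _ => 1) * muA (fun _ => cen n) (fun _ => 1)) (C + C ^ 2) X g x hx
    (fun m => by
      refine (hlc m).trans ?_
      have h2 := hsq m
      have h3 : (0 : ℝ) ≤ (m : ℝ) := Nat.cast_nonneg m
      nlinarith [mul_le_mul_of_nonneg_left h2 hC0.le, mul_nonneg (sq_nonneg C) (sq_nonneg (m : ℝ))])
    (fun m => by
      refine (CVT_bound _ _ C hC0 hls hmc m).trans ?_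
      nlinarith [mul_nonneg hC0.le (sq_nonneg (m : ℝ))])
    hXm hXb hg
  rw [hfh] at a1 a4
  have e1 : (fun m : ℕ => lamA (fun p => sat n (β p)) (fun _ => 1) m * X m * g (m * x)) =
      fun m : ℕ => lamA (fun p => sat n (β p)) X m * g (m * x) := by
    funext m
    rw [h1 m]
    ring
  rw [e1] at a1 a4
  exact ⟨a1, a2, a4⟩

end Pool.Agent.TW
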