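import Pool.Agent.helper1.TW.SpecA
import Pool.Agent.helper38.ZT.SpecG

/-!
# Project TW, row GTF: basic facts on the functions `D.f`
-/

set_option autoImplicit false

open Complex MeasureTheory Set
open scoped ComplexConjugate

namespace Pool.Agent.TW

open Pool.Agent.ZT (VV gC Bn MC lamA muA hm Sqf)

/-- the termwise bound -/
theorem GTF_term (a : ℕ → ℂ) (C₀ C : ℝ) (hC₀ : 0 ≤ C₀) (ha0 : a 0 = 0) (ham : ∀ m : ℕ, ‖a m‖ ≤ C₀ * m)
    (g : ℝ → ℂ) (σ : ℝ) (hσ : 3 ≤ σ) (hC : ∀ x : ℝ, 0 < x → ‖g x‖ ≤ C * x ^ (-σ)) (d : ℕ) (x : ℝ) (hx : 0 < x) :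
    ‖a d * g (d * x)‖ ≤ C₀ * C * (d : ℝ) ^ (-2 : ℝ) * x ^ (-σ) := by
  have hCnn : 0 ≤ C := by
    have := hC 1 one_pos
    rw [Real.one_rpow, mul_one] at this
    exact (norm_nonneg _).trans this
  rcases Nat.eq_zero_or_pos d with rfl | hd
  · rw [ha0, zero_mul, norm_zero]
    positivity
  · have hd' : (0 : ℝ) < d := by exact_mod_cast hd
    have hd1 : (1 : ℝ) ≤ d := by exact_mod_cast hd
    rw [norm_mul]
    calc ‖a d‖ * ‖g (d * x)‖ ≤ (C₀ * d) * (C * (d * x) ^ (-σ)) :=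
          mul_le_mul (ham d) (hC _ (by positivity)) (norm_nonneg _) (by positivity)
      _ = C₀ * C * (d * (d : ℝ) ^ (-σ)) * x ^ (-σ) := by
          rw [Real.mul_rpow hd'.le hx.le]; ring
      _ ≤ C₀ * C * (d : ℝ) ^ (-2 : ℝ) * x ^ (-σ) := by
          have h1 : (d : ℝ) * (d : ℝ) ^ (-σ) = (d : ℝ) ^ (1 + -σ) := by
            rw [Real.rpow_add hd', Real.rpow_one]
          have h2 : (d : ℝ) ^ (1 + -σ) ≤ (d : ℝ) ^ (-2 : ℝ) :=
            Real.rpow_le_rpow_of_exponent_le hd1 (by linarith)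
          rw [h1]
          gcongr

theorem GTF_sum : Summable (fun d : ℕ => (d : ℝ) ^ (-2 : ℝ)) :=
  Real.summable_nat_rpow.mpr (by norm_num)

/-- `G(x) = ∑ a(d) g_w(d x)` -/
noncomputable def GTF_G {n : ℕ} (μ : Fin n → ℝ) (a : ℕ → ℂ) (j : ℕ) (v : VV) (x : ℝ) : ℂ :=
  ∑' d : ℕ, a d * gC μ j v (d * x)

theorem GTF_core (hGDC : Pool.Agent.ZT.GDC_stmt) (n : ℕ) (μ : Fin n → ℝ) (C₀ : ℝ) (a : ℕ → ℂ)
    (hμ : Pool.Agent.BA.Par 1 μ) (hC₀ : 0 ≤ C₀) (ha0 : a 0 = 0) (ham : ∀ m : ℕ, ‖a m‖ ≤ C₀ * m) :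
    (∀ (j : ℕ) (v : VV) (x : ℝ), 0 < x → Summable (fun d : ℕ => ‖a d * gC μ j v (d * x)‖)) ∧
    (∀ (j : ℕ) (v : VV) (x : ℝ), 0 < x → HasDerivAt (GTF_G μ a j v) (GTF_G μ a (j + 1) v x / x) x) ∧
    (∀ (j : ℕ) (v : VV) (σ : ℝ), 3 ≤ σ → ∃ C : ℝ, ∀ x : ℝ, 0 < x → ‖GTF_G μ a j v x‖ ≤ C * x ^ (-σ)) ∧
    (∀ (j : ℕ) (v w : VV) (x : ℝ), 0 < x → GTF_G μ a j (v + w) x = GTF_G μ a j v x + GTF_G μ a j w x) ∧
    (∀ (j : ℕ) (c : ℝ) (v : VV) (x : ℝ), 0 < x → GTF_G μ a j (c • v) x = (c : ℂ) * GTF_G μ a j v x) ∧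
    ∀ (j : ℕ) (x : ℝ), GTF_G μ a j 0 x = 0 := by
  have hS : ∀ (j : ℕ) (v : VV) (x : ℝ), 0 < x → Summable (fun d : ℕ => ‖a d * gC μ j v (d * x)‖) := by
    intro j v x hx
    obtain ⟨C, hC⟩ := (hGDC n j μ hμ).2.1 v 3 (by norm_num)
    refine Summable.of_nonneg_of_le (fun _ => norm_nonneg _)
      (fun d => GTF_term a C₀ C hC₀ ha0 ham _ 3 le_rfl hC d x hx) ?_
    exact (GTF_sum.mul_left (C₀ * C)).mul_right _
  refine ⟨hS, ?_, ?_, ?_, ?_, ?_⟩
  · intro j v x hx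
    obtain ⟨C, hC⟩ := (hGDC n (j + 1) μ hμ).2.1 v 3 (by norm_num)
    have hx2 : 0 < x / 2 := by linarith
    have hderiv := hasDerivAt_tsum_of_isPreconnected
      (g := fun (d : ℕ) (y : ℝ) => a d * gC μ j v (d * y))
      (g' := fun (d : ℕ) (y : ℝ) => a d * gC μ (j + 1) v (d * y) / y)
      (u := fun d : ℕ => C₀ * C * (d : ℝ) ^ (-2 : ℝ) * ((x / 2) ^ (-3 : ℝ) * (x / 2)⁻¹))
      (t := Ioi (x / 2)) (y₀ := x) (y := x)
      ((GTF_sum.mul_left (C₀ * C)).mul_right _) isOpen_Ioi isPreconnected_Ioi ?_ ?_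
      (by rw [mem_Ioi]; linarith) ((hS j v x hx).of_norm) (by rw [mem_Ioi]; linarith)
    · have h1 : ∑' d : ℕ, a d * gC μ (j + 1) v (d * x) / (x : ℂ) = GTF_G μ a (j + 1) v x / x := by
        rw [tsum_div_const]
        rfl
      rw [h1] at hderiv
      exact hderiv
    · intro d y hy
      have hy0 : 0 < y := hx2.trans hy
      rcases Nat.eq_zero_or_pos d with rfl | hd
      · simp only [ha0, zero_mul, zero_div]
        exact hasDerivAt_const _ _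
      · have hd' : (0 : ℝ) < d := by exact_mod_cast hd
        have h2 := (hGDC n j μ hμ).1 v (d * y) (by positivity)
        have h3 : HasDerivAt (fun y : ℝ => (d : ℝ) * y) (d : ℝ) y := by
          simpa using (hasDerivAt_id y).const_mul (d : ℝ)
        have h4 := (h2.scomp y h3).const_mul (a d)
        refine h4.congr_deriv ?_
        have hdc : (d : ℂ) ≠ 0 := by exact_mod_cast hd.ne'
        have hyc : (y : ℂ) ≠ 0 := by exact_mod_cast hy0.ne'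
        rw [Complex.real_smul]
        push_cast
        field_simp
    · intro d y hy
      have hy0 : 0 < y := hx2.trans hy
      rw [norm_div, Complex.norm_real, Real.norm_of_nonneg hy0.le, div_eq_mul_inv]
      have hCnn : 0 ≤ C := by
        have := hC 1 one_pos
        rw [Real.one_rpow, mul_one] at this
        exact (norm_nonneg _).trans this
      have h5 := GTF_term a C₀ C hC₀ ha0 ham _ 3 le_rfl hC d y hy0
      have h6 : y ^ (-3 : ℝ) ≤ (x / 2) ^ (-3 : ℝ) :=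
        Real.rpow_le_rpow_of_nonpos hx2 (le_of_lt hy) (by norm_num)
      have h7 : y⁻¹ ≤ (x / 2)⁻¹ := inv_anti₀ hx2 (le_of_lt hy)
      calc ‖a d * gC μ (j + 1) v (d * y)‖ * y⁻¹ ≤
            (C₀ * C * (d : ℝ) ^ (-2 : ℝ) * y ^ (-3 : ℝ)) * y⁻¹ :=
            mul_le_mul_of_nonneg_right h5 (by positivity)
        _ ≤ (C₀ * C * (d : ℝ) ^ (-2 : ℝ) * (x / 2) ^ (-3 : ℝ)) * (x / 2)⁻¹ := by gcongr
        _ = _ := by ring
  · intro j v σ hσ
    obtain ⟨C, hC⟩ := (hGDC n j μ hμ).2.1 v σ (by linarith)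
    refine ⟨∑' d : ℕ, C₀ * C * (d : ℝ) ^ (-2 : ℝ), fun x hx => ?_⟩
    unfold GTF_G
    have hs : Summable (fun d : ℕ => C₀ * C * (d : ℝ) ^ (-2 : ℝ) * x ^ (-σ)) :=
      (GTF_sum.mul_left (C₀ * C)).mul_right _
    rw [← tsum_mul_right]
    exact tsum_of_norm_bounded hs.hasSum
      (fun d => GTF_term a C₀ C hC₀ ha0 ham _ σ hσ hC d x hx)
  · intro j v w x hx
    unfold GTF_G
    rw [← ((hS j v x hx).of_norm).tsum_add ((hS j w x hx).of_norm)]
    refine tsum_congr fun d => ?_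
    rw [(hGDC n j μ hμ).2.2.1 v w, mul_add]
  · intro j c v x hx
    unfold GTF_G
    rw [← tsum_mul_left]
    refine tsum_congr fun d => ?_
    rw [(hGDC n j μ hμ).2.2.2 c v]
    ring
  · intro j x
    unfold GTF_G
    have h0 : ∀ y : ℝ, gC μ j (0 : VV) y = 0 := by
      intro y
      have h1 := (hGDC n j μ hμ).2.2.2 0 0 y
      rw [smul_zero, Complex.ofReal_zero, zero_mul] at h1
      exact h1
    simp only [h0, mul_zero, tsum_zero]

theorem GTF (hGDC : Pool.Agent.ZT.GDC_stmt) : GTF_stmt := by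
  intro n ι D hn hctr hr hω hX hμ
  have hr1 : ∀ i, (1 : ℝ) ≤ (D.r i : ℝ) := fun i => by exact_mod_cast hr i
  have hrho : ∀ i, 1 ≤ D.rho i := fun i => by
    unfold Dat.rho
    rw [Real.one_le_sqrt]
    exact one_le_pow₀ (hr1 i)
  obtain ⟨S, hS0, hS⟩ : ∃ S : ℝ, 0 ≤ S ∧ ∀ m : ℕ, ‖D.a m‖ ≤ S * m := by
    refine ⟨∑' d : ℕ, (‖D.a d‖ + ‖D.b d‖) * (d : ℝ) ^ (-(3 / 5) : ℝ), tsum_nonneg fun d => by positivity, fun m => ?_⟩
    rcases Nat.eq_zero_or_pos m with h0 | h0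
    · rw [h0, hctr.a0, norm_zero]
      simp
    · have hm : (1 : ℝ) ≤ m := by exact_mod_cast h0
      have hm0 : (0 : ℝ) < m := by linarith
      have h1 : (‖D.a m‖ + ‖D.b m‖) * (m : ℝ) ^ (-(3 / 5) : ℝ) ≤
          ∑' d : ℕ, (‖D.a d‖ + ‖D.b d‖) * (d : ℝ) ^ (-(3 / 5) : ℝ) :=
        hctr.sm.le_tsum m (fun d _ => by positivity)
      have h2 : ‖D.a m‖ * (m : ℝ)⁻¹ ≤ (‖D.a m‖ + ‖D.b m‖) * (m : ℝ) ^ (-(3 / 5) : ℝ) := by
        have h3 : (m : ℝ)⁻¹ ≤ (m : ℝ) ^ (-(3 / 5) : ℝ) := by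
          rw [← Real.rpow_neg_one]
          exact Real.rpow_le_rpow_of_exponent_le hm (by norm_num)
        refine mul_le_mul (by linarith [norm_nonneg (D.b m)]) h3 (by positivity) (by positivity)
      have h4 := h2.trans h1
      rwa [← div_eq_mul_inv, div_le_iff₀ hm0] at h4
  have hA : ∀ i, ∀ m : ℕ, ‖D.a m * D.X i m‖ ≤ S * m := fun i m => by
    rw [norm_mul]
    calc ‖D.a m‖ * ‖D.X i m‖ ≤ ‖D.a m‖ * 1 := mul_le_mul_of_nonneg_left (hX i m) (norm_nonneg _)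
      _ ≤ S * m := by rw [mul_one]; exact hS m
  have hcore := fun i => GTF_core hGDC n (D.μ i) S (fun d => D.a d * D.X i d) ⟨hn, hμ i⟩ hS0
    (by show D.a 0 * D.X i 0 = 0; rw [hctr.a0, zero_mul]) (hA i)
  have hf : ∀ (j : ℕ) (i : ι) (w : VV) (x : ℝ), D.f j i w x =
      D.ω i * GTF_G (D.μ i) (fun d => D.a d * D.X i d) j w (x / D.rho i) := fun j i w x => rfl
  have hpos : ∀ (i : ι) (x : ℝ), 0 < x → 0 < x / D.rho i := fun i x hx =>
    div_pos hx (lt_of_lt_of_le one_pos (hrho i))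
  refine ⟨hrho, ?_, ?_, ?_, ?_, ?_, ?_⟩
  · intro j i w x hx
    exact (hcore i).1 j w _ (hpos i x hx)
  · intro j i w x hx
    have h1 := (hcore i).2.1 j w _ (hpos i x hx)
    have h3 : HasDerivAt (fun y : ℝ => y / D.rho i) (1 / D.rho i) x := (hasDerivAt_id x).div_const (D.rho i)
    have h4 := (h1.scomp x h3).const_mul (D.ω i)
    have h5 : D.f j i w = fun y => D.ω i * (GTF_G (D.μ i) (fun d => D.a d * D.X i d) j w ∘
        fun y : ℝ => y / D.rho i) y := by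
      funext y
      rfl
    rw [h5]
    refine h4.congr_deriv ?_
    rw [hf]
    have hρ : (D.rho i : ℂ) ≠ 0 := by
      exact_mod_cast (lt_of_lt_of_le one_pos (hrho i)).ne'
    have hxc : (x : ℂ) ≠ 0 := by exact_mod_cast hx.ne'
    rw [Complex.real_smul]
    push_cast
    field_simp
  · intro j i w σ hσ
    obtain ⟨C, hC⟩ := (hcore i).2.2.1 j w σ hσ
    refine ⟨C * (D.rho i) ^ σ, fun x hx => ?_⟩
    have hρ : 0 < D.rho i := lt_of_lt_of_le one_pos (hrho i)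
    rw [hf, norm_mul, hω, one_mul]
    refine (hC _ (hpos i x hx)).trans (le_of_eq ?_)
    rw [Real.div_rpow hx.le hρ.le, Real.rpow_neg hρ.le, div_inv_eq_mul]
    ring
  · intro j i w w' x hx
    rw [hf, hf, hf, (hcore i).2.2.2.1 j w w' _ (hpos i x hx), mul_add]
  · intro j i t w x hx
    rw [hf, hf, (hcore i).2.2.2.2.1 j t w _ (hpos i x hx)]
    ring
  · intro j i x
    rw [hf, (hcore i).2.2.2.2.2 j, mul_zero]

end Pool.Agent.TW
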