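import Pool.Agent.helper7.TW.SpecC

set_option autoImplicit false

open Finset Classical

namespace Pool.Agent.TW

lemma LCY_108 (K : ℕ) : (108 : ℝ) ^ K ≤ Real.exp (5 * (K : ℝ)) := by
  have h1 : (108 : ℝ) ≤ Real.exp 5 := by
    have h2 : Real.exp 5 = (Real.exp 1) ^ 5 := by
      rw [← Real.exp_nat_mul]
      norm_num
    rw [h2]
    have h3 := Real.exp_one_gt_d9
    have h4 : (2.7 : ℝ) ≤ Real.exp 1 := by linarith
    calc (108 : ℝ) ≤ (2.7 : ℝ) ^ 5 := by norm_num
      _ ≤ (Real.exp 1) ^ 5 := pow_le_pow_left₀ (by norm_num) h4 5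
  calc (108 : ℝ) ^ K ≤ (Real.exp 5) ^ K := pow_le_pow_left₀ (by norm_num) h1 K
    _ = Real.exp (5 * (K : ℝ)) := by
      rw [← Real.exp_nat_mul]
      congr 1
      ring

lemma LCY_num (L : ℝ) (K : ℕ) (hL : 0 ≤ L) (hK : 1000 * (K : ℝ) ≤ L) :
    8 * ((K : ℝ) * 108 ^ K) ≤ Real.exp (L / 2) := by
  have h1 := LCY_108 K
  have h2 : Real.exp (5 * (K : ℝ)) ≤ Real.exp (L / 4) := Real.exp_le_exp.mpr (by linarith)
  have h3 : 8 * (K : ℝ) ≤ Real.exp (L / 4) := by
    have := Real.add_one_le_exp (L / 4)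
    linarith
  have h4 : Real.exp (L / 2) = Real.exp (L / 4) * Real.exp (L / 4) := by
    rw [← Real.exp_add]
    congr 1
    ring
  rw [h4]
  calc 8 * ((K : ℝ) * 108 ^ K) = (8 * (K : ℝ)) * 108 ^ K := by ring
    _ ≤ Real.exp (L / 4) * Real.exp (L / 4) :=
      mul_le_mul h3 (h1.trans h2) (by positivity) (Real.exp_pos _).le

theorem LCY (hFM : FM_stmt) : LCY_stmt := by
  intro M _
  have hM : 1 ≤ M := Nat.one_le_iff_ne_zero.mpr (NeZero.ne M)
  set n : ℝ := 12 * (M : ℝ) with hn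
  have hn1 : (1 : ℝ) ≤ n := by
    have : (1 : ℝ) ≤ (M : ℝ) := by exact_mod_cast hM
    rw [hn]; linarith
  have hn0 : 0 < n := by linarith
  set L : ℝ := Real.log n with hL
  have hL0 : 0 ≤ L := Real.log_nonneg hn1
  set K : ℕ := ⌊L / 1000⌋₊ with hK
  have hKL : 1000 * (K : ℝ) ≤ L := by
    have h1 : (K : ℝ) ≤ L / 1000 := Nat.floor_le (by positivity)
    linarith
  set P : ℝ := (M : ℝ) ^ Fintype.card (Sym2 (Fin (12 * M))) with hP
  have hP0 : 0 ≤ P := by rw [hP]; positivity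
  -- the sets counted
  let F : (Sym2 (Fin (12 * M)) → Fin M) → Finset (Finset (Fin (12 * M))) := fun w =>
    (univ : Finset (Finset (Fin (12 * M)))).filter (fun T =>
        T.Nonempty ∧ 1000 * (T.card : ℝ) ≤ L ∧ T.card ≤ e1 (GR w) T)
  let Y : ℕ → (Sym2 (Fin (12 * M)) → Fin M) → Finset (Finset (Fin (12 * M))) := fun s w =>
    (univ : Finset (Finset (Fin (12 * M)))).filter (fun T => T.card = s ∧ s + 0 ≤ e1 (GR w) T)
  have hFY : ∀ w, ((F w).card : ℝ) ≤ ∑ s ∈ Finset.Icc 1 K, ((Y s w).card : ℝ) := by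
    intro w
    have h1 : F w ⊆ (Finset.Icc 1 K).biUnion (fun s => Y s w) := by
      intro T hT
      simp only [F, mem_filter, mem_univ, true_and] at hT
      obtain ⟨hT1, hT2, hT3⟩ := hT
      simp only [mem_biUnion, mem_Icc, Y, mem_filter, mem_univ, true_and]
      refine ⟨T.card, ⟨Finset.card_pos.mpr hT1, ?_⟩, rfl, by simpa using hT3⟩
      rw [hK]
      apply Nat.le_floor
      linarith
    have h2 : (F w).card ≤ ∑ s ∈ Finset.Icc 1 K, (Y s w).card :=
      (Finset.card_le_card h1).trans Finset.card_biUnion_le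
    exact_mod_cast h2
  have hsum : ∑ w, ((F w).card : ℝ) ≤ P * ((K : ℝ) * 108 ^ K) := by
    calc ∑ w, ((F w).card : ℝ) ≤ ∑ w, ∑ s ∈ Finset.Icc 1 K, ((Y s w).card : ℝ) :=
          Finset.sum_le_sum (fun w _ => hFY w)
      _ = ∑ s ∈ Finset.Icc 1 K, ∑ w, ((Y s w).card : ℝ) := Finset.sum_comm
      _ ≤ ∑ s ∈ Finset.Icc 1 K, P * 108 ^ K := by
          apply Finset.sum_le_sum
          intro s hs
          rw [mem_Icc] at hs
          have h1 := hFM M s 0 hs.1
          have h2 : (108 : ℝ) ^ s ≤ 108 ^ K := pow_le_pow_right₀ (by norm_num) hs.2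
          calc ∑ w, ((Y s w).card : ℝ) ≤ P * (108 ^ s * (3 * (s : ℝ) / M) ^ 0) := h1
            _ = P * 108 ^ s := by rw [pow_zero, mul_one]
            _ ≤ P * 108 ^ K := mul_le_mul_of_nonneg_left h2 hP0
      _ = P * ((K : ℝ) * 108 ^ K) := by
          rw [Finset.sum_const, Nat.card_Icc, nsmul_eq_mul]
          have : K + 1 - 1 = K := by omega
          rw [this]
          ring
  have hsq : Real.exp (L / 2) = Real.sqrt n := by
    rw [Real.sqrt_eq_rpow, Real.rpow_def_of_pos hn0]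
    congr 1
    rw [hL]
    ring
  have hnum := LCY_num L K hL0 hKL
  rw [hsq] at hnum
  have hs0 : 0 < Real.sqrt n := Real.sqrt_pos.mpr hn0
  set Bad := (univ : Finset (Sym2 (Fin (12 * M)) → Fin M)).filter (fun w =>
      Real.sqrt n < ((F w).card : ℝ)) with hBad
  have hmarkov : (Bad.card : ℝ) * Real.sqrt n ≤ ∑ w, ((F w).card : ℝ) := by
    calc (Bad.card : ℝ) * Real.sqrt n = ∑ w ∈ Bad, Real.sqrt n := by
          rw [Finset.sum_const, nsmul_eq_mul]
      _ ≤ ∑ w ∈ Bad, ((F w).card : ℝ) := by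
          apply Finset.sum_le_sum
          intro w hw
          rw [hBad, mem_filter] at hw
          exact hw.2.le
      _ ≤ ∑ w, ((F w).card : ℝ) := by
          apply Finset.sum_le_sum_of_subset_of_nonneg (Finset.subset_univ _)
          intro w _ _
          positivity
  have hfin : 8 * (Bad.card : ℝ) ≤ P := by
    have h1 : (8 * (Bad.card : ℝ)) * Real.sqrt n ≤ P * Real.sqrt n := by
      calc (8 * (Bad.card : ℝ)) * Real.sqrt n = 8 * ((Bad.card : ℝ) * Real.sqrt n) := by ring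
        _ ≤ 8 * (P * ((K : ℝ) * 108 ^ K)) := by linarith
        _ = P * (8 * ((K : ℝ) * 108 ^ K)) := by ring
        _ ≤ P * Real.sqrt n := mul_le_mul_of_nonneg_left hnum hP0
    exact le_of_mul_le_mul_right h1 hs0
  exact hfin

end Pool.Agent.TW
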